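import Pool.Agent.Q93.QC.Near

/-!
# Continuous families of metrics: eigenvalues and mean values are continuous
-/

set_option autoImplicit false
set_option linter.unusedSectionVars false

open Set Filter Topology MeasureTheory

noncomputable section

namespace Pool.Agent.Q93.QC

open Pool.Agent.Y262.QE Pool.Agent.Y264.QR Pool.Agent.Y378.QR Q101.QG Pool.Agent.Q93.QB
  Pool.Agent.Q93.BGS

section

variable {M : Type} [MetricSpace M] [CompactSpace M] [MeasurableSpace M] [BorelSpace M]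
  {D : Data M}

/-- the mean value -/
def mn (μ : Measure M) (f : C(M, ℝ)) : ℝ := (∫ x, f x ∂μ) / μ.real univ

theorem mn_eq (μ : Measure M) (f : C(M, ℝ)) : avg μ f 0 = mn μ f := by
  rw [avg_eq, wm_one]
  rfl

theorem mn_near [Nonempty M] {D : Data M} {μ : Measure M} (hD : D.IsSurf μ) (f g : C(M, ℝ)) :
    |mn μ f - mn μ g| ≤ ‖f - g‖ := by
  obtain ⟨hf, -⟩ := tFin M μ _ hD
  rw [← mn_eq, ← mn_eq]
  exact avg_near μ f g 0

theorem mn_neg (μ : Measure M) (f : C(M, ℝ)) : mn μ (-f) = -mn μ f := by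
  unfold mn
  have h1 : ∫ x, (-f) x ∂μ = -∫ x, f x ∂μ := by
    rw [← integral_neg]
    rfl
  rw [h1, neg_div]

/-- the mass is a contraction -/
theorem int_near {μ : Measure M} (f g : C(M, ℝ)) (w : M → ℝ) (hw : MemLp w 2 μ)
    (hn : ∫ x, (w x) ^ 2 ∂μ = 1) :
    |∫ x, f x * (w x) ^ 2 ∂μ - ∫ x, g x * (w x) ^ 2 ∂μ| ≤ ‖f - g‖ := by
  have hi := hw.integrable_sq
  have hif : ∀ f : C(M, ℝ), Integrable (fun x => f x * (w x) ^ 2) μ := by
    intro f
    refine (hi.const_mul ‖f‖).mono'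
      (f.continuous.aestronglyMeasurable.mul hi.aestronglyMeasurable)
      (Eventually.of_forall fun x => ?_)
    rw [norm_mul, Real.norm_eq_abs ((w x) ^ 2), abs_of_nonneg (sq_nonneg _)]
    exact mul_le_mul_of_nonneg_right (f.norm_coe_le_norm x) (sq_nonneg _)
  rw [← integral_sub (hif f) (hif g), ← Real.norm_eq_abs]
  have h1 : ‖f - g‖ = ∫ x, ‖f - g‖ * (w x) ^ 2 ∂μ := by
    rw [integral_const_mul, hn, mul_one]
  conv_rhs => rw [h1]
  refine norm_integral_le_of_norm_le (hi.const_mul _) (Eventually.of_forall fun x => ?_)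
  rw [← sub_mul, norm_mul, Real.norm_eq_abs ((w x) ^ 2), abs_of_nonneg (sq_nonneg _)]
  exact mul_le_mul_of_nonneg_right ((f - g).norm_coe_le_norm x) (sq_nonneg _)

variable [Nonempty M] {Y : Type} [TopologicalSpace Y] {A : Y → Fin D.N → ℂ → ℂ →L[ℝ] ℂ}
  {m : Y → Measure M}

theorem lev_cont (hS : ∀ y, (recf D (A y)).IsSurf (m y))
    (hA : ∀ (y : Y) (κ : ℝ), 1 < κ → ∀ᶠ y' in 𝓝 y,
      Cmp D (A y) (A y') κ ∧ Cmp D (A y') (A y) κ) (j : ℕ) :
    Continuous fun y => lev (recf D (A y)) (m y) j := by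
  refine cont_of_ratio (fun y => lev_nonneg (hS y) j) fun y κ hκ => ?_
  filter_upwards [hA y κ hκ] with y' hy'
  have h1 := lev_cmp (hS y) (hS y') (by linarith) hy'.1 hy'.2 j
  have h2 := lev_cmp (hS y') (hS y) (by linarith) hy'.2 hy'.1 j
  have h3 : κ ^ 6 ≤ κ ^ 8 := pow_le_pow_right₀ hκ.le (by norm_num)
  exact ⟨h1.trans (mul_le_mul_of_nonneg_right h3 (lev_nonneg (hS y) j)),
    h2.trans (mul_le_mul_of_nonneg_right h3 (lev_nonneg (hS y') j))⟩

theorem int_cont (hS : ∀ y, (recf D (A y)).IsSurf (m y))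
    (hA : ∀ (y : Y) (κ : ℝ), 1 < κ → ∀ᶠ y' in 𝓝 y,
      Cmp D (A y) (A y') κ ∧ Cmp D (A y') (A y) κ) (f : C(M, ℝ)) :
    Continuous fun y => ∫ x, f x ∂(m y) := by
  rw [continuous_iff_continuousAt]
  intro y
  rw [ContinuousAt, Metric.tendsto_nhds]
  intro ε hε
  obtain ⟨hf, -⟩ := tFin M _ _ (hS y)
  have e1 : ∀ᶠ κ in 𝓝[>] (1 : ℝ), 3 * (κ ^ 2 - 1) * ‖f‖ * (∫ _x, (1 : ℝ) ^ 2 ∂(m y)) < ε :=
    ex_kappa (g := fun κ => 3 * (κ ^ 2 - 1) * ‖f‖ * (∫ _x, (1 : ℝ) ^ 2 ∂(m y)))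
      (by fun_prop) (by norm_num) hε
  obtain ⟨κ, e1, hκ⟩ := (e1.and self_mem_nhdsWithin).exists
  have hκ' : (1 : ℝ) < κ := hκ
  filter_upwards [hA y κ hκ'] with y' hy'
  obtain ⟨hf', -⟩ := tFin M _ _ (hS y')
  have hκ0 : 0 ≤ κ := by linarith
  have h1 := mass_cmp hκ'.le (meas_cmp (hS y) (hS y') hκ0 hy'.1)
    (meas_cmp (hS y') (hS y) hκ0 hy'.2) f (F := fun _ => 1) continuous_const
  simp only [one_pow, mul_one] at h1 e1
  rw [Real.dist_eq]
  exact lt_of_le_of_lt h1 e1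

theorem mn_cont (hS : ∀ y, (recf D (A y)).IsSurf (m y))
    (hA : ∀ (y : Y) (κ : ℝ), 1 < κ → ∀ᶠ y' in 𝓝 y,
      Cmp D (A y) (A y') κ ∧ Cmp D (A y') (A y) κ) (f : C(M, ℝ)) :
    Continuous fun y => mn (m y) f := by
  have h1 : ∀ y, (m y).real univ = ∫ x, (1 : C(M, ℝ)) x ∂(m y) := by
    intro y
    simp
  unfold mn
  refine (int_cont hS hA f).div ?_ fun y => (area_pos (hS y)).ne'
  simp only [h1]
  exact int_cont hS hA 1

end

end Pool.Agent.Q93.QC
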