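import Mathlib

/-!
# A linear relation with equivalent norms extends to a surjective continuous linear map
-/

set_option autoImplicit false

open Set Filter Topology

namespace Pool.Agent.Q93.QC

variable {H H' : Type} [NormedAddCommGroup H] [NormedSpace ℝ H] [CompleteSpace H]
  [NormedAddCommGroup H'] [NormedSpace ℝ H'] [CompleteSpace H']

theorem ext (R : H → H' → Prop) (h0 : R 0 0)
    (hl : ∀ v v' w w' (α β : ℝ), R v v' → R w w' → R (α • v + β • w) (α • v' + β • w'))
    (hd : ∀ (e : H) (δ : ℝ), 0 < δ → ∃ v v', R v v' ∧ ‖v - e‖ < δ)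
    (hd' : ∀ (e : H') (δ : ℝ), 0 < δ → ∃ v v', R v v' ∧ ‖v' - e‖ < δ)
    (C : ℝ) (hC : ∀ v v', R v v' → ‖v'‖ ≤ C * ‖v‖ ∧ ‖v‖ ≤ C * ‖v'‖) :
    ∃ T : H →L[ℝ] H', (∀ v v', R v v' → T v = v') ∧ Function.Surjective T := by
  let S : Submodule ℝ (H × H') :=
    { carrier := {p | R p.1 p.2}
      zero_mem' := h0
      add_mem' := by
        intro p q hp hq
        have := hl _ _ _ _ 1 1 hp hq
        simpa using this
      smul_mem' := by
        intro c p hp
        have := hl _ _ _ _ c 0 hp hp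
        simpa using this }
  let f : S →ₗ[ℝ] H' := (LinearMap.snd ℝ H H').comp S.subtype
  let e : S →ₗ[ℝ] H := (LinearMap.fst ℝ H H').comp S.subtype
  have hde : DenseRange e := by
    intro x
    rw [Metric.mem_closure_iff]
    intro δ hδ
    obtain ⟨v, v', hr, hv⟩ := hd x δ hδ
    refine ⟨v, ⟨⟨(v, v'), hr⟩, rfl⟩, ?_⟩
    rw [dist_comm, dist_eq_norm]
    exact hv
  have hn : ∃ C, ∀ x, ‖f x‖ ≤ C * ‖e x‖ := ⟨C, fun x => (hC _ _ x.2).1⟩
  refine ⟨f.extendOfNorm e, ?_, ?_⟩
  · intro v v' hr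
    exact LinearMap.extendOfNorm_eq hde hn ⟨(v, v'), hr⟩
  · intro z
    have hT : ∀ v v', R v v' → f.extendOfNorm e v = v' := fun v v' hr =>
      LinearMap.extendOfNorm_eq hde hn ⟨(v, v'), hr⟩
    choose v v' hr hv using fun n : ℕ => hd' z (1 / ((n : ℝ) + 1)) (by positivity)
    have h1 : Tendsto v' atTop (𝓝 z) := by
      rw [tendsto_iff_norm_sub_tendsto_zero]
      exact squeeze_zero (fun n => norm_nonneg _) (fun n => (hv n).le)
        tendsto_one_div_add_atTop_nhds_zero_nat
    have h2 : CauchySeq v := by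
      rw [Metric.cauchySeq_iff']
      intro ε hε
      have h3 := h1.cauchySeq
      rw [Metric.cauchySeq_iff'] at h3
      obtain ⟨N, hN⟩ := h3 (ε / (|C| + 1)) (by positivity)
      refine ⟨N, fun n hn => ?_⟩
      have h4 := hN n hn
      rw [dist_eq_norm] at h4 ⊢
      have h5 := (hC _ _ (hl _ _ _ _ 1 (-1) (hr n) (hr N))).2
      have h6 : (1 : ℝ) • v n + (-1 : ℝ) • v N = v n - v N := by
        rw [one_smul, neg_one_smul, sub_eq_add_neg]
      have h7 : (1 : ℝ) • v' n + (-1 : ℝ) • v' N = v' n - v' N := by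
        rw [one_smul, neg_one_smul, sub_eq_add_neg]
      rw [h6, h7] at h5
      rw [lt_div_iff₀ (by positivity)] at h4
      have h8 := le_abs_self C
      have h9 := norm_nonneg (v' n - v' N)
      nlinarith
    obtain ⟨w, hw⟩ := cauchySeq_tendsto_of_complete h2
    refine ⟨w, ?_⟩
    have h3 := ((f.extendOfNorm e).continuous.tendsto w).comp hw
    have h4 : Tendsto (fun n => f.extendOfNorm e (v n)) atTop (𝓝 z) := by
      simp only [hT _ _ (hr _)]
      exact h1
    exact tendsto_nhds_unique h3 h4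

end Pool.Agent.Q93.QC
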