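import Pool.Agent.Q93.QC.Spread

/-!
# Continuous families of metrics: one-sided bounds for sets of test functions
-/

set_option autoImplicit false
set_option linter.unusedSectionVars false

open Set Filter Topology MeasureTheory

noncomputable section

namespace Pool.Agent.Q93.QC

open Pool.Agent.Y262.QE Pool.Agent.Y264.QR Pool.Agent.Y378.QR Q101.QG Pool.Agent.Q93.QB
  Pool.Agent.Q93.BGS

section

variable {M : Type} [MetricSpace M] [CompactSpace M] [MeasurableSpace M] [BorelSpace M] [Nonempty M]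

/-- one-sided bounds for a set of test functions, for eigenvalues `E ≥ L` -/
def Wi (D : Data M) (μ : Measure M) (F : Set (C(M, ℝ) × (ℝ → ℝ))) (L : ℕ) : Prop :=
  ∀ (E : ℝ) (v : M → ℝ), D.IsEig μ E v → ∫ x, (v x) ^ 2 ∂μ = 1 → (L : ℝ) ≤ E →
    ∀ p ∈ F, ∫ x, p.1 x * (v x) ^ 2 ∂μ ≤ mn μ p.1 + p.2 E

variable {D : Data M} {Y : Type} [TopologicalSpace Y] {A : Y → Fin D.N → ℂ → ℂ →L[ℝ] ℂ}
  {m : Y → Measure M}

/-- the parameters with these bounds -/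
def WS (D : Data M) (A : Y → Fin D.N → ℂ → ℂ →L[ℝ] ℂ) (m : Y → Measure M)
    (F : Set (C(M, ℝ) × (ℝ → ℝ))) (L : ℕ) : Set Y :=
  {y | Wi (recf D (A y)) (m y) F L}

theorem kpF (hS : ∀ y, (recf D (A y)).IsSurf (m y))
    (hA : ∀ (y : Y) (κ : ℝ), 1 < κ → ∀ᶠ y' in 𝓝 y,
      Cmp D (A y) (A y') κ ∧ Cmp D (A y') (A y) κ) (F : Set (C(M, ℝ) × (ℝ → ℝ)))
    (hF : ∀ p ∈ F, Continuous p.2 ∧ ∀ y, p.1 ∈ closure (Dir D A y)) (L : ℕ) :
    interior (closure (WS D A m F L)) ⊆ WS D A m F (L + 1) := by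
  intro x₀ hx₀ E v hv hn hk p hp
  by_contra hcon
  rw [not_le] at hcon
  obtain ⟨hr, hf⟩ := hF p hp
  set d : ℝ := ∫ x, p.1 x * (v x) ^ 2 ∂(m x₀) - (mn (m x₀) p.1 + p.2 E) with hd
  have hd0 : 0 < d := sub_pos.2 hcon
  have hL1 : (L : ℝ) + 1 ≤ E := by
    have h1 := hk
    push_cast at h1
    exact h1
  have hE0 : 0 < E := by
    have := Nat.cast_nonneg (α := ℝ) L
    linarith
  have hre : ∀ᶠ t in 𝓝 E, p.2 t < p.2 E + d / 4 :=
    hr.continuousAt.eventually_lt_const (by linarith)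
  obtain ⟨ρ, hρ, hρr⟩ := Metric.eventually_nhds_iff.1 hre
  obtain ⟨O', j, hO', ⟨y₁, hy₁⟩, hsub, hall⟩ := spread' hS hA x₀ p.1 (hf x₀) (p.2 E + d / 2) (d / 4)
    (by positivity) E v hv hn hE0 (by rw [hd] at hd0 ⊢; linarith) (min ρ 1) (lt_min hρ one_pos) _
    isOpen_interior hx₀
  have h1 : y₁ ∈ closure (WS D A m F L) := interior_subset (hsub hy₁)
  obtain ⟨y, hy, hyok⟩ := mem_closure_iff.1 h1 O' hO' hy₁
  obtain ⟨hLy, hwy⟩ := hall y hy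
  obtain ⟨-, -, -, -, ⟨u', lam', hu'⟩, hlev, -⟩ := base (hS y)
  have hl := hlev u' lam' hu' j
  have hLy1 : |lev (recf D (A y)) (m y) j - E| < ρ := lt_of_lt_of_le hLy (min_le_left _ _)
  have hLy2 : |lev (recf D (A y)) (m y) j - E| < 1 := lt_of_lt_of_le hLy (min_le_right _ _)
  have hej : (recf D (A y)).IsEig (m y) (lev (recf D (A y)) (m y) j) (u' j) := by
    rw [hl]
    exact hu'.eig j
  have hnj : ∫ x, (u' j x) ^ 2 ∂(m y) = 1 := by
    have h4 := hu'.orth j j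
    rw [if_pos rfl] at h4
    rw [← h4]
    exact integral_congr_ae (Eventually.of_forall fun x => by simp only [sq])
  have h2 := hwy (u' j) hej hnj
  have h3 := hyok _ (u' j) hej hnj (by linarith [(abs_lt.1 hLy2).1]) p hp
  have h7 : p.2 (lev (recf D (A y)) (m y) j) < p.2 E + d / 4 :=
    hρr (by rw [Real.dist_eq]; exact hLy1)
  linarith

/-- the bounds for `g` imply those for `f` with a larger constant -/
theorem wi_mono {y : Y} (hS : (recf D (A y)).IsSurf (m y)) {f g : C(M, ℝ)} {c c' : ℝ} {L : ℕ}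
    (h : 2 * ‖f - g‖ + c ≤ c') (hw : y ∈ WS D A m {(g, fun _ => c)} L) :
    y ∈ WS D A m {(f, fun _ => c')} L := by
  intro E v hv hn hk p hp
  rw [mem_singleton_iff] at hp
  subst hp
  have h3 := hw E v hv hn hk (g, fun _ => c) (mem_singleton _)
  have h3' : ∫ x, g x * (v x) ^ 2 ∂(m y) ≤ mn (m y) g + c := h3
  show ∫ x, f x * (v x) ^ 2 ∂(m y) ≤ mn (m y) f + c'
  have k2 := abs_le.1 (int_near f g v hv.mem hn)
  have k4 := abs_le.1 (mn_near hS f g)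
  linarith [k2.1, k2.2, k4.1, k4.2]

/-- the sets for quantum unique ergodicity -/
def SP (D : Data M) (A : Y → Fin D.N → ℂ → ℂ →L[ℝ] ℂ) (m : Y → Measure M) (p : Pr M) (L : ℕ) :
    Set Y :=
  WS D A m {(p.1, fun _ => (p.2 : ℝ))} L

theorem cofF (hS : ∀ y, (recf D (A y)).IsSurf (m y)) :
    ∃ I : Set (Pr M), I.Countable ∧ ∀ p : Pr M, ∃ q ∈ I, ∀ L, SP D A m q L ⊆ SP D A m p L := by
  obtain ⟨T, hT2, hT3⟩ := TopologicalSpace.exists_countable_dense C(M, ℝ)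
  refine ⟨(fun z : C(M, ℝ) × ℕ => (z.1, (⟨1 / ((z.2 : ℝ) + 1), by positivity⟩ : {ε : ℝ // 0 < ε})))
    '' (T ×ˢ univ), (hT2.prod countable_univ).image _, ?_⟩
  rintro ⟨f, ⟨ε, hε⟩⟩
  obtain ⟨n, hn⟩ := exists_nat_one_div_lt (show 0 < ε / 4 by positivity)
  obtain ⟨g, hg, hgf⟩ := Metric.mem_closure_iff.1 (hT3 f) (ε / 4) (by positivity)
  rw [dist_eq_norm] at hgf
  refine ⟨_, ⟨(g, n), ⟨hg, mem_univ _⟩, rfl⟩, fun L y hy => ?_⟩
  refine wi_mono (hS y) ?_ hy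
  show 2 * ‖f - g‖ + 1 / ((n : ℝ) + 1) ≤ ε
  linarith

/-- quantum unique ergodicity and the one-sided bounds -/
theorem que_iff' (D : Data M) (μ : Measure M) :
    (∀ (E : ℕ → ℝ) (v : ℕ → M → ℝ), (∀ n, D.IsEig μ (E n) (v n)) →
      (∀ n, ∫ x, (v n x) ^ 2 ∂μ = 1) → Tendsto E atTop atTop → ∀ f : C(M, ℝ),
        Tendsto (fun n => ∫ x, f x * (v n x) ^ 2 ∂μ) atTop
          (𝓝 ((∫ x, f x ∂μ) / μ.real univ))) ↔
    ∀ (f : C(M, ℝ)) (ε : ℝ), 0 < ε → ∃ L : ℕ, Wi D μ {(f, fun _ => ε)} L := by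
  have hneg : ∀ (f : C(M, ℝ)) (w : M → ℝ), ∫ x, (-f) x * (w x) ^ 2 ∂μ =
      -∫ x, f x * (w x) ^ 2 ∂μ := by
    intro f w
    rw [← integral_neg]
    refine integral_congr_ae (Eventually.of_forall fun x => ?_)
    show -(f x) * (w x) ^ 2 = -(f x * (w x) ^ 2)
    ring
  rw [que_iff]
  constructor
  · intro h f ε hε
    obtain ⟨L, hL⟩ := h f ε hε
    refine ⟨L, fun E v hv hn hk p hp => ?_⟩
    rw [mem_singleton_iff] at hp
    subst hp
    have h1 := (abs_le.1 (hL E v hv hn hk)).2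
    have h2 : ∫ x, f x * (v x) ^ 2 ∂μ - mn μ f ≤ ε := h1
    show ∫ x, f x * (v x) ^ 2 ∂μ ≤ mn μ f + ε
    linarith
  · intro h f ε hε
    obtain ⟨L₁, hL₁⟩ := h f ε hε
    obtain ⟨L₂, hL₂⟩ := h (-f) ε hε
    refine ⟨max L₁ L₂, fun E v hv hn hk => ?_⟩
    have k1 : (L₁ : ℝ) ≤ E := le_trans (by exact_mod_cast le_max_left L₁ L₂) hk
    have k2 : (L₂ : ℝ) ≤ E := le_trans (by exact_mod_cast le_max_right L₁ L₂) hk
    have h1 : ∫ x, f x * (v x) ^ 2 ∂μ ≤ mn μ f + ε := hL₁ E v hv hn k1 _ (mem_singleton _)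
    have h2 : ∫ x, (-f) x * (v x) ^ 2 ∂μ ≤ mn μ (-f) + ε :=
      hL₂ E v hv hn k2 _ (mem_singleton _)
    rw [hneg, mn_neg] at h2
    show |∫ x, f x * (v x) ^ 2 ∂μ - mn μ f| ≤ ε
    rw [abs_le]
    constructor <;> linarith

/-- the topological law for one set of conditions -/
theorem lawF (hS : ∀ y, (recf D (A y)).IsSurf (m y))
    (hA : ∀ (y : Y) (κ : ℝ), 1 < κ → ∀ᶠ y' in 𝓝 y,
      Cmp D (A y) (A y') κ ∧ Cmp D (A y') (A y) κ) (F : Set (C(M, ℝ) × (ℝ → ℝ)))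
    (hF : ∀ p ∈ F, Continuous p.2 ∧ ∀ y, p.1 ∈ closure (Dir D A y)) :
    ∀ᶠ y in residual Y, (∃ L, y ∈ WS D A m F L) → ∃ L, ∀ᶠ z in 𝓝 y, z ∈ WS D A m F L := by
  obtain ⟨U₀, -, h⟩ := open_law (fun (_ : Unit) L => WS D A m F L)
    (fun _ => ⟨(), fun L => ⟨L + 1, kpF hS hA F hF L⟩⟩) univ countable_univ
    (fun p => ⟨p, mem_univ _, fun _ => subset_rfl⟩)
  filter_upwards [h] with y hy hL
  exact hy.2.1 (fun _ => hL) ()

/-- all test functions and constants at once -/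
theorem hull (hS : ∀ y, (recf D (A y)).IsSurf (m y))
    (hA : ∀ (y : Y) (κ : ℝ), 1 < κ → ∀ᶠ y' in 𝓝 y,
      Cmp D (A y) (A y') κ ∧ Cmp D (A y') (A y) κ)
    (hd : ∀ (f : C(M, ℝ)) (y : Y), f ∈ closure (Dir D A y)) :
    ∀ᶠ y in residual Y, ∀ (f : C(M, ℝ)) (c ε : ℝ), 0 < ε →
      (∃ L, y ∈ WS D A m {(f, fun _ => c)} L) →
      ∃ L, ∀ᶠ z in 𝓝 y, z ∈ WS D A m {(f, fun _ => c + ε)} L := by
  obtain ⟨T, hT2, hT3⟩ := TopologicalSpace.exists_countable_dense C(M, ℝ)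
  have key : ∀ᶠ y in residual Y, ∀ g ∈ T, ∀ q : ℚ,
      (∃ L, y ∈ WS D A m {(g, fun _ => (q : ℝ))} L) →
      ∃ L, ∀ᶠ z in 𝓝 y, z ∈ WS D A m {(g, fun _ => (q : ℝ))} L := by
    rw [eventually_countable_ball hT2]
    intro g _
    rw [eventually_countable_forall]
    intro q
    refine lawF hS hA _ ?_
    intro p hp
    rw [mem_singleton_iff] at hp
    subst hp
    exact ⟨continuous_const, hd g⟩
  filter_upwards [key] with y hy
  rintro f c ε hε ⟨L, hL⟩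
  obtain ⟨g, hg, hgf⟩ := Metric.mem_closure_iff.1 (hT3 f) (ε / 8) (by positivity)
  rw [dist_eq_norm] at hgf
  obtain ⟨q, hq1, hq2⟩ := exists_rat_btwn (show c + ε / 4 < c + ε / 2 by linarith)
  have h1 : y ∈ WS D A m {(g, fun _ => (q : ℝ))} L := by
    refine wi_mono (hS y) ?_ hL
    rw [norm_sub_rev]
    linarith
  obtain ⟨L', hL'⟩ := hy g hg q ⟨L, h1⟩
  refine ⟨L', ?_⟩
  filter_upwards [hL'] with z hz
  refine wi_mono (hS z) ?_ hz
  linarith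

end

end Pool.Agent.Q93.QC
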