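import Pool.Agent.Q93.BGS.M

/-!
# Integrals of continuous functions for comparable measures
-/

set_option autoImplicit false

open Set Filter Topology MeasureTheory

namespace Pool.Agent.Q93.QC

variable {M : Type} [TopologicalSpace M] [CompactSpace M] [MeasurableSpace M] [BorelSpace M]
  {μ μ' : Measure M} {κ : ℝ}

theorem cint' (μ : Measure M) [IsFiniteMeasure μ] {g : M → ℝ} (hg : Continuous g) :
    Integrable g μ :=
  hg.integrable_of_hasCompactSupport (HasCompactSupport.of_compactSpace _)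

theorem int_le [IsFiniteMeasure μ'] (h1 : μ ≤ ENNReal.ofReal (κ ^ 2) • μ') {g : M → ℝ}
    (hg : Continuous g) (h0 : ∀ x, 0 ≤ g x) : ∫ x, g x ∂μ ≤ κ ^ 2 * ∫ x, g x ∂μ' := by
  haveI : IsFiniteMeasure (ENNReal.ofReal (κ ^ 2) • μ') :=
    Measure.smul_finite μ' ENNReal.ofReal_ne_top
  have hk : (ENNReal.ofReal (κ ^ 2)).toReal = κ ^ 2 := ENNReal.toReal_ofReal (by positivity)
  calc ∫ x, g x ∂μ ≤ ∫ x, g x ∂(ENNReal.ofReal (κ ^ 2) • μ') :=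
        integral_mono_measure h1 (Eventually.of_forall h0) (cint' _ hg)
    _ = κ ^ 2 * ∫ x, g x ∂μ' := by rw [integral_smul_measure, hk, smul_eq_mul]

theorem mass_cmp [IsFiniteMeasure μ] [IsFiniteMeasure μ'] (hκ : 1 ≤ κ)
    (h1 : μ ≤ ENNReal.ofReal (κ ^ 2) • μ') (h2 : μ' ≤ ENNReal.ofReal (κ ^ 2) • μ) (f : C(M, ℝ))
    {F : M → ℝ} (hF : Continuous F) :
    |∫ x, f x * (F x) ^ 2 ∂μ' - ∫ x, f x * (F x) ^ 2 ∂μ| ≤
      3 * (κ ^ 2 - 1) * ‖f‖ * ∫ x, (F x) ^ 2 ∂μ := by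
  have hfb : ∀ x, |f x| ≤ ‖f‖ := fun x => by
    rw [← Real.norm_eq_abs]
    exact f.norm_coe_le_norm x
  have hfc : Continuous fun x => f x * (F x) ^ 2 := by fun_prop
  have hFc : Continuous fun x => (F x) ^ 2 := by fun_prop
  have hp : ∀ ν : Measure M, IsFiniteMeasure ν → ∫ x, (‖f‖ * (F x) ^ 2 + f x * (F x) ^ 2) ∂ν =
      ‖f‖ * ∫ x, (F x) ^ 2 ∂ν + ∫ x, f x * (F x) ^ 2 ∂ν := by
    intro ν hν
    rw [integral_add ((cint' ν hFc).const_mul _) (cint' ν hfc), integral_const_mul]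
  have hm : ∀ ν : Measure M, IsFiniteMeasure ν → ∫ x, (‖f‖ * (F x) ^ 2 - f x * (F x) ^ 2) ∂ν =
      ‖f‖ * ∫ x, (F x) ^ 2 ∂ν - ∫ x, f x * (F x) ^ 2 ∂ν := by
    intro ν hν
    rw [integral_sub ((cint' ν hFc).const_mul _) (cint' ν hfc), integral_const_mul]
  have p0 : ∀ x, 0 ≤ ‖f‖ * (F x) ^ 2 + f x * (F x) ^ 2 := fun x => by
    rw [← add_mul]
    have := (abs_le.1 (hfb x)).1
    exact mul_nonneg (by linarith) (sq_nonneg _)
  have m0 : ∀ x, 0 ≤ ‖f‖ * (F x) ^ 2 - f x * (F x) ^ 2 := fun x => by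
    rw [← sub_mul]
    have := (abs_le.1 (hfb x)).2
    exact mul_nonneg (by linarith) (sq_nonneg _)
  have k1 := int_le h2 (g := fun x => ‖f‖ * (F x) ^ 2 + f x * (F x) ^ 2) (by fun_prop) p0
  have k2 := int_le h2 (g := fun x => ‖f‖ * (F x) ^ 2 - f x * (F x) ^ 2) (by fun_prop) m0
  have k3 := int_le h1 hFc (fun x => sq_nonneg _)
  have k4 : 0 ≤ ∫ x, (F x) ^ 2 ∂μ := integral_nonneg fun x => sq_nonneg _
  have k4' : 0 ≤ ∫ x, (F x) ^ 2 ∂μ' := integral_nonneg fun x => sq_nonneg _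
  have k5 : 0 ≤ ∫ x, (‖f‖ * (F x) ^ 2 + f x * (F x) ^ 2) ∂μ := integral_nonneg p0
  have k6 : 0 ≤ ∫ x, (‖f‖ * (F x) ^ 2 - f x * (F x) ^ 2) ∂μ := integral_nonneg m0
  rw [hp _ inferInstance] at k5
  rw [hm _ inferInstance] at k6
  rw [hp _ inferInstance, hp _ inferInstance] at k1
  rw [hm _ inferInstance, hm _ inferInstance] at k2
  set I := ∫ x, (F x) ^ 2 ∂μ with hI
  set I' := ∫ x, (F x) ^ 2 ∂μ' with hI'
  set J := ∫ x, f x * (F x) ^ 2 ∂μ with hJ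
  set J' := ∫ x, f x * (F x) ^ 2 ∂μ' with hJ'
  have hκ2 : 1 ≤ κ ^ 2 := one_le_pow₀ hκ
  have hn : 0 ≤ ‖f‖ := norm_nonneg _
  -- `I' ≥ (2 - κ²) I`
  have k7 : (2 - κ ^ 2) * I ≤ I' := by
    by_cases h : κ ^ 2 ≤ 2
    · have h3 : (2 - κ ^ 2) * I ≤ (2 - κ ^ 2) * (κ ^ 2 * I') :=
        mul_le_mul_of_nonneg_left k3 (by linarith)
      have h4 : (2 - κ ^ 2) * κ ^ 2 ≤ 1 := by nlinarith [sq_nonneg (κ ^ 2 - 1)]
      nlinarith
    · have h3 : (2 - κ ^ 2) * I ≤ 0 := mul_nonpos_of_nonpos_of_nonneg (by linarith) k4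
      linarith
  have k8 : ‖f‖ * ((2 - κ ^ 2) * I) ≤ ‖f‖ * I' := mul_le_mul_of_nonneg_left k7 hn
  have k9 : 0 ≤ (κ ^ 2 - 1) * (‖f‖ * I - J) := mul_nonneg (by linarith) k6
  have k10 : 0 ≤ (κ ^ 2 - 1) * (‖f‖ * I + J) := mul_nonneg (by linarith) k5
  rw [abs_le]
  constructor
  · linarith
  · linarith

end Pool.Agent.Q93.QC
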