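import Pool.Agent.Q93.QB.Main
import Pool.Agent.Q93.BGS.P

/-!
# The forms of a surface
-/

set_option autoImplicit false
set_option linter.unusedSectionVars false

open Set Filter Topology MeasureTheory

noncomputable section

namespace Pool.Agent.Q93.QC

open Pool.Agent.Y262.QE Pool.Agent.Y264.QR Pool.Agent.Y378.QR Q101.QG Pool.Agent.Q93.QB
  Pool.Agent.Q93.BGS

section

variable {M : Type} [MetricSpace M] [CompactSpace M] [MeasurableSpace M] [BorelSpace M]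

/-- the form of `L²` -/
def bb (D : Data M) (μ : Measure M) : HF D μ →L[ℝ] HF D μ →L[ℝ] ℝ :=
  (innerSL ℝ (E := Lp ℝ 2 μ)).bilinearComp (ii D μ) (ii D μ)

theorem bb_apply (D : Data M) (μ : Measure M) (u v : HF D μ) :
    bb D μ u v = inner ℝ u.1.fst v.1.fst := rfl

/-- the `j`-th eigenvalue -/
def lev (D : Data M) (μ : Measure M) (j : ℕ) : ℝ := Ev (aa D μ) (bb D μ) j

theorem a_eq {D : Data M} {μ : Measure M} {a : HF D μ →L[ℝ] HF D μ →L[ℝ] ℝ}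
    (ha : ∀ u v, a u v = inner ℝ u.1.snd v.1.snd) : a = aa D μ := by
  ext u v
  rw [ha]
  rfl

theorem b_eq {D : Data M} {μ : Measure M} {i : HF D μ →L[ℝ] Lp ℝ 2 μ}
    {b : C(M, ℝ) → HF D μ →L[ℝ] HF D μ →L[ℝ] ℝ} (hi : ∀ v : HF D μ, i v = v.1.fst)
    (hB : IsB μ i b) : b 0 = bb D μ := by
  ext u v
  rw [hB, bb_apply, ← hi, ← hi, inn]
  simp

/-- the forms, eigenvectors and eigenfunctions of a surface -/
theorem base [Nonempty M] {D : Data M} {μ : Measure M} (hD : D.IsSurf μ) :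
    Fm (aa D μ) (bb D μ) ∧
    (∀ (E : ℝ) (v : M → ℝ), D.IsEig μ E v → ∫ x, (v x) ^ 2 ∂μ = 1 →
      ∃ z : HF D μ, (z.1.fst : M → ℝ) =ᵐ[μ] v ∧ EV (aa D μ) (bb D μ) E z) ∧
    (∀ (E : ℝ) (z : HF D μ), EV (aa D μ) (bb D μ) E z →
      D.IsEig μ E (z.1.fst : M → ℝ) ∧ ∫ x, ((z.1.fst : M → ℝ) x) ^ 2 ∂μ = 1) ∧
    (∀ f : C(M, ℝ), ∃ q : HF D μ →L[ℝ] HF D μ →L[ℝ] ℝ, (∀ u v, q u v = q v u) ∧
      ∀ v, q v v = ∫ x, f x * ((v.1.fst : M → ℝ) x) ^ 2 ∂μ ∧ |q v v| ≤ ‖f‖ * bb D μ v v) ∧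
    (∃ (u : ℕ → M → ℝ) (lam : ℕ → ℝ), EigBasis D μ u lam) ∧
    (∀ (u : ℕ → M → ℝ) (lam : ℕ → ℝ), EigBasis D μ u lam → ∀ j, lev D μ j = lam j) ∧
    ∀ (u : ℕ → M → ℝ) (lam : ℕ → ℝ), EigBasis D μ u lam →
      ∃ e : ℕ → HF D μ, Eg (aa D μ) (bb D μ) e lam := by
  obtain ⟨hf, -⟩ := tFin M μ D hD
  haveI := hf
  obtain ⟨i, a, hSf, hi, ha⟩ := tPackF M μ D hD inferInstance
  obtain ⟨b, hB, hF, -, -, -⟩ := tFm M μ (HF D μ) i a hSf
  obtain ⟨-, -, hk⟩ := forms μ i a b hSf hB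
  have ea : a = aa D μ := a_eq ha
  have eb : b 0 = bb D μ := b_eq hi hB
  have hF0 : Fm (aa D μ) (bb D μ) := by rw [← ea, ← eb]; exact hF 0
  have hbr : ∀ (u : ℕ → M → ℝ) (lam : ℕ → ℝ), EigBasis D μ u lam →
      ∃ e : ℕ → HF D μ, Eg (aa D μ) (bb D μ) e lam := by
    intro u lam hu
    obtain ⟨e, -, he⟩ := tBr M μ D hD i a b hSf hi ha hB hF 0 u lam (by
      rw [conf_one, wm_one]
      exact hu)
    rw [ea, eb] at he
    exact ⟨e, he⟩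
  refine ⟨hF0, ?_, ?_, ?_, ?_, ?_, hbr⟩
  · intro E v hv hn
    obtain ⟨z, hz, hz2⟩ := toEV μ D hD i a b hi ha hB 0 E v (by
      rw [conf_one, wm_one]
      exact hv) (by
      rw [wm_one]
      exact hn)
    rw [hi] at hz
    rw [ea, eb] at hz2
    exact ⟨z, hz, hz2⟩
  · intro E z hz
    have hw : Continuous fun x : M => Real.exp ((0 : C(M, ℝ)) x) := by fun_prop
    have h1 := eigF tGr tFin tConf tDenF M μ D hD _ hw (fun x => Real.exp_pos _) E z.1 z.2 (by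
      intro v' hv'
      have h2 := hz.1 ⟨v', hv'⟩
      rw [← ea, ← eb, ha, hB] at h2
      rw [h2, hi, hi])
    rw [conf_one, wm_one] at h1
    refine ⟨h1, ?_⟩
    have h2 := hz.2
    rw [bb_apply, inn] at h2
    rw [← h2]
    exact integral_congr_ae (Eventually.of_forall fun x => by simp only [sq])
  · intro f
    obtain ⟨q, hq1, hq2⟩ := hk f
    refine ⟨q 0, hq1 0, fun v => ⟨?_, ?_⟩⟩
    · rw [(hq2 0 v).1, kap, hi]
      simp
    · rw [← eb]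
      exact (hq2 0 v).2
  · exact (pack hD).1
  · intro u lam hu j
    obtain ⟨e, he⟩ := hbr u lam hu
    exact Pool.Agent.Y592.QE.mm _ (aa D μ) (bb D μ) hF0 e lam he j

end

end Pool.Agent.Q93.QC
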