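import Pool.Agent.Q93.QC.Ext
import Pool.Agent.Q93.QC.Pk
import Pool.Agent.Q93.QC.Mass

/-!
# The transfer between the form domains of two comparable metrics
-/

set_option autoImplicit false
set_option linter.unusedSectionVars false

open Set Filter Topology MeasureTheory

noncomputable section

namespace Pool.Agent.Q93.QC

open Pool.Agent.Y262.QE Pool.Agent.Y264.QR Pool.Agent.Y378.QR Q101.QG Pool.Agent.Q93.QB
  Pool.Agent.Q93.BGS

section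

variable {M : Type} [MetricSpace M] [CompactSpace M] [MeasurableSpace M] [BorelSpace M]
  {D : Data M} {A A' : Fin D.N → ℂ → ℂ →L[ℝ] ℂ} {μ μ' : Measure M}

theorem rel_symm {v : HF (recf D A) μ} {v' : HF (recf D A') μ'} (h : Rel D A A' μ μ' v v') :
    Rel D A' A μ' μ v' v := by
  obtain ⟨F, hF, f1, f2, f3, f4⟩ := h
  exact ⟨F, hF, f3, f4, f1, f2⟩

theorem nrm' (D₁ : Data M) (ν : Measure M) (v : HF D₁ ν) :
    ‖v‖ ^ 2 = ‖v.1.snd‖ ^ 2 + ‖v.1.fst‖ ^ 2 := by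
  rw [nrm, aa_apply, ii_apply, real_inner_self_eq_norm_sq]

theorem aa_self (D₁ : Data M) (ν : Measure M) (v : HF D₁ ν) : aa D₁ ν v v = ‖v.1.snd‖ ^ 2 := by
  rw [aa_apply, real_inner_self_eq_norm_sq]

theorem bb_self (D₁ : Data M) (ν : Measure M) (v : HF D₁ ν) : bb D₁ ν v v = ‖v.1.fst‖ ^ 2 := by
  rw [bb_apply, real_inner_self_eq_norm_sq]

theorem rel_bd (hD : (recf D A).IsSurf μ) (hD' : (recf D A').IsSurf μ') {κ : ℝ} (hκ : 1 ≤ κ)
    (h : Cmp D A A' κ) (h' : Cmp D A' A κ) {v : HF (recf D A) μ} {v' : HF (recf D A') μ'}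
    (hr : Rel D A A' μ μ' v v') : ‖v'‖ ≤ κ ^ 2 * ‖v‖ := by
  have hκ0 : 0 ≤ κ := by linarith
  have h1 := (rel_norm hD hD' hκ0 h h' hr).1
  have h2 := (rel_norm hD' hD hκ0 h' h (rel_symm hr)).2
  have h3 : κ ^ 2 ≤ κ ^ 4 := pow_le_pow_right₀ hκ (by norm_num)
  have h4 : ‖v'‖ ^ 2 ≤ (κ ^ 2 * ‖v‖) ^ 2 := by
    rw [mul_pow, nrm', nrm']
    have h5 : κ ^ 2 * ‖v.1.fst‖ ^ 2 ≤ κ ^ 4 * ‖v.1.fst‖ ^ 2 :=
      mul_le_mul_of_nonneg_right h3 (sq_nonneg _)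
    nlinarith
  exact (pow_le_pow_iff_left₀ (norm_nonneg _) (by positivity) two_ne_zero).1 h4

theorem ratio {κ x y : ℝ} {n : ℕ} (hκ : 1 ≤ κ) (hn : n ≤ 4) (hx : 0 ≤ x) (h1 : y ≤ κ ^ n * x)
    (h2 : x ≤ κ ^ n * y) : |y - x| ≤ (κ ^ 4 - 1) * x := by
  have h3 : κ ^ n ≤ κ ^ 4 := pow_le_pow_right₀ hκ hn
  have h4 : 1 ≤ κ ^ 4 := one_le_pow₀ hκ
  have h5 : κ ^ n * x ≤ κ ^ 4 * x := mul_le_mul_of_nonneg_right h3 hx
  rw [abs_le]
  constructor
  · by_cases h6 : x ≤ y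
    · have : 0 ≤ (κ ^ 4 - 1) * x := mul_nonneg (by linarith) hx
      linarith
    · rw [not_le] at h6
      have h7 : 1 ≤ κ ^ n := one_le_pow₀ hκ
      have h8 : (κ ^ n - 1) * y ≤ (κ ^ n - 1) * x :=
        mul_le_mul_of_nonneg_left h6.le (by linarith)
      have h9 : (κ ^ n - 1) * x ≤ (κ ^ 4 - 1) * x := mul_le_mul_of_nonneg_right (by linarith) hx
      linarith
  · linarith

theorem complete (D₁ : Data M) (ν : Measure M) : CompleteSpace (HF D₁ ν) := by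
  unfold HF
  exact (Submodule.isClosed_topologicalClosure _).completeSpace_coe

theorem transfer (hD : (recf D A).IsSurf μ) (hD' : (recf D A').IsSurf μ') {κ : ℝ} (hκ : 1 ≤ κ)
    (h : Cmp D A A' κ) (h' : Cmp D A' A κ) :
    ∃ T : HF (recf D A) μ →L[ℝ] HF (recf D A') μ', Function.Surjective T ∧
      (∀ v, |aa (recf D A') μ' (T v) (T v) - aa (recf D A) μ v v| ≤
        (κ ^ 4 - 1) * aa (recf D A) μ v v) ∧
      (∀ v, |bb (recf D A') μ' (T v) (T v) - bb (recf D A) μ v v| ≤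
        (κ ^ 4 - 1) * bb (recf D A) μ v v) ∧
      ∀ (f : C(M, ℝ)) (q : HF (recf D A) μ →L[ℝ] HF (recf D A) μ →L[ℝ] ℝ)
        (q' : HF (recf D A') μ' →L[ℝ] HF (recf D A') μ' →L[ℝ] ℝ),
        (∀ v, q v v = ∫ x, f x * ((v.1.fst : M → ℝ) x) ^ 2 ∂μ) →
        (∀ v, q' v v = ∫ x, f x * ((v.1.fst : M → ℝ) x) ^ 2 ∂μ') →
        ∀ v, |q' (T v) (T v) - q v v| ≤ 3 * (κ ^ 2 - 1) * ‖f‖ * bb (recf D A) μ v v := by
  have hκ0 : 0 ≤ κ := by linarith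
  haveI := complete (recf D A) μ
  haveI := complete (recf D A') μ'
  obtain ⟨hf, -⟩ := tFin M μ _ hD
  obtain ⟨hf', -⟩ := tFin M μ' _ hD'
  obtain ⟨T, hT, hTs⟩ := ext (Rel D A A' μ μ') (rel_zero hD hD')
    (fun v v' w w' α β hv hw => rel_lin hD hD' hv hw α β)
    (fun e δ hδ => rel_approx hD hD' e hδ)
    (fun e δ hδ => by
      obtain ⟨v', v, hr, hv⟩ := rel_approx (μ := μ') (μ' := μ) hD' hD e hδ
      exact ⟨v, v', rel_symm hr, hv⟩) (κ ^ 2)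
    (fun v v' hr => ⟨rel_bd hD hD' hκ h h' hr, rel_bd hD' hD hκ h' h (rel_symm hr)⟩)
  -- density
  have key : ∀ {P : HF (recf D A) μ → Prop}, IsClosed {v | P v} →
      (∀ (v : HF (recf D A) μ) (v' : HF (recf D A') μ') (F : M → ℝ), (recf D A).C1 F →
        (v.1.fst : M → ℝ) =ᵐ[μ] F → (v'.1.fst : M → ℝ) =ᵐ[μ'] F → Rel D A A' μ μ' v v' →
        T v = v' → P v) → ∀ v, P v := by
    intro P hc hP
    refine dens tDenF hD hc fun v F hF h1 h2 => ?_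
    obtain ⟨v', hv', h3, h4⟩ := (tDenF M μ' _ hD').1 F hF
    have hr : Rel D A A' μ μ' v ⟨v', hv'⟩ := ⟨F, hF, h1, h2, h3, h4⟩
    exact hP v ⟨v', hv'⟩ F hF h1 h3 hr (hT _ _ hr)
  refine ⟨T, hTs, ?_, ?_, ?_⟩
  · refine key ?_ ?_
    · refine isClosed_le ?_ ?_ <;> fun_prop
    · intro v v' F hF h1 h3 hr hTv
      rw [hTv, aa_self, aa_self]
      exact ratio (n := 4) hκ le_rfl (sq_nonneg _) (rel_norm hD hD' hκ0 h h' hr).1
        (rel_norm hD' hD hκ0 h' h (rel_symm hr)).1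
  · refine key ?_ ?_
    · refine isClosed_le ?_ ?_ <;> fun_prop
    · intro v v' F hF h1 h3 hr hTv
      rw [hTv, bb_self, bb_self]
      exact ratio (n := 2) hκ (by norm_num) (sq_nonneg _)
        (rel_norm hD' hD hκ0 h' h (rel_symm hr)).2 (rel_norm hD hD' hκ0 h h' hr).2
  · intro f q q' hq hq'
    refine key ?_ ?_
    · refine isClosed_le ?_ ?_ <;> fun_prop
    · intro v v' F hF h1 h3 hr hTv
      rw [hTv, hq, hq', bb_self, nsq]
      have e1 : ∫ x, f x * ((v.1.fst : M → ℝ) x) ^ 2 ∂μ = ∫ x, f x * (F x) ^ 2 ∂μ :=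
        integral_congr_ae (h1.mono fun x hx => by simp only [hx])
      have e2 : ∫ x, f x * ((v'.1.fst : M → ℝ) x) ^ 2 ∂μ' = ∫ x, f x * (F x) ^ 2 ∂μ' :=
        integral_congr_ae (h3.mono fun x hx => by simp only [hx])
      have e3 : ∫ x, ((v.1.fst : M → ℝ) x) ^ 2 ∂μ = ∫ x, (F x) ^ 2 ∂μ :=
        integral_congr_ae (h1.mono fun x hx => by simp only [hx])
      rw [e1, e2, e3]
      exact mass_cmp hκ (meas_cmp hD hD' hκ0 h) (meas_cmp hD' hD hκ0 h') f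
        ((tGr M μ _ hD).1 F hF).1

end

end Pool.Agent.Q93.QC
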