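import Pool.Agent.Q93.QC.Stab
import Pool.Agent.Q93.QC.Tr

/-!
# Stability of the eigenfunctions of a given index when the metric varies
-/

set_option autoImplicit false
set_option linter.unusedSectionVars false

open Set Filter Topology MeasureTheory

noncomputable section

namespace Pool.Agent.Q93.QC

open Pool.Agent.Y262.QE Pool.Agent.Y264.QR Pool.Agent.Y378.QR Q101.QG Pool.Agent.Q93.QB
  Pool.Agent.Q93.BGS

section

variable {M : Type} [MetricSpace M] [CompactSpace M] [MeasurableSpace M] [BorelSpace M]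
  {D : Data M} {A A' : Fin D.N → ℂ → ℂ →L[ℝ] ℂ} {μ μ' : Measure M}

/-- all normalized eigenfunctions of the `j`-th eigenvalue have at least the mass `c` of `f` -/
def Pj (D : Data M) (μ : Measure M) (j : ℕ) (f : C(M, ℝ)) (c : ℝ) : Prop :=
  ∀ v : M → ℝ, D.IsEig μ (lev D μ j) v → ∫ x, (v x) ^ 2 ∂μ = 1 → c ≤ ∫ x, f x * (v x) ^ 2 ∂μ

theorem lev_cmp [Nonempty M] (hD : (recf D A).IsSurf μ) (hD' : (recf D A').IsSurf μ') {κ : ℝ}
    (hκ : 0 ≤ κ) (h : Cmp D A A' κ) (h' : Cmp D A' A κ) (j : ℕ) :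
    lev (recf D A') μ' j ≤ κ ^ 6 * lev (recf D A) μ j := by
  obtain ⟨-, -, -, -, ⟨u, lam, hu⟩, hlev, hbas⟩ := base hD
  obtain ⟨hF', -, -, -, ⟨u', lam', hu'⟩, hlev', hbas'⟩ := base hD'
  obtain ⟨e, he⟩ := hbas u lam hu
  obtain ⟨e', he'⟩ := hbas' u' lam' hu'
  rw [hlev u lam hu, hlev' u' lam' hu']
  exact ev_cmp hD hD' hκ h h' he (fun u v => rfl) (fun u v => rfl) hF' he' (fun u v => rfl)
    (fun u v => rfl) j

theorem lev_nonneg [Nonempty M] {D : Data M} (hD : D.IsSurf μ) (j : ℕ) : 0 ≤ lev D μ j := by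
  obtain ⟨hF, -, -, -, ⟨u, lam, hu⟩, hlev, hbas⟩ := base hD
  obtain ⟨e, he⟩ := hbas u lam hu
  rw [hlev u lam hu]
  have h1 := he.eig j (e j)
  rw [he.orth, if_pos rfl, mul_one] at h1
  rw [← h1]
  exact hF.na _

theorem ex_kappa {g : ℝ → ℝ} (hg : Continuous g) (h1 : g 1 = 0) {δ : ℝ} (hδ : 0 < δ) :
    ∀ᶠ κ in 𝓝[>] (1 : ℝ), g κ < δ := by
  have h2 := (hg.tendsto 1).mono_left (nhdsWithin_le_nhds (s := Ioi 1))
  rw [h1] at h2
  exact h2.eventually_lt_const hδ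

theorem near' [Nonempty M] (hD : (recf D A).IsSurf μ) (j : ℕ) (f : C(M, ℝ)) (c ε : ℝ)
    (hε : 0 < ε) (hP : Pj (recf D A) μ j f c) :
    ∃ κ : ℝ, 1 < κ ∧ ∀ (A' : Fin D.N → ℂ → ℂ →L[ℝ] ℂ) (μ' : Measure M),
      (recf D A').IsSurf μ' → Cmp D A A' κ → Cmp D A' A κ → Pj (recf D A') μ' j f (c - ε) := by
  obtain ⟨hF, -, hev, hq, ⟨u, lam, hu⟩, hlev, hbas⟩ := base hD
  obtain ⟨e, he⟩ := hbas u lam hu
  obtain ⟨q, hqs, hqv⟩ := hq f
  have hl0 := lev_nonneg hD j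
  obtain ⟨δ, hδ, hδ1, hst⟩ := stab2 (aa (recf D A) μ) (bb (recf D A) μ) hF e lam he (-q) ‖f‖
    (fun u v => by
      show -(q u v) = -(q v u)
      rw [hqs]) (norm_nonneg _)
    (fun v => by
      show |-(q v v)| ≤ _
      rw [abs_neg]
      exact (hqv v).2) j (-c)
    (fun v hv => by
      show -(q v v) ≤ -c
      rw [(hqv v).1]
      refine neg_le_neg ?_
      obtain ⟨h1, h2⟩ := hev _ v hv
      rw [← hlev u lam hu] at h1
      exact hP _ h1 h2) (ε / 2) (by positivity)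
  have e1 : ∀ᶠ κ in 𝓝[>] (1 : ℝ), κ ^ 4 - 1 < δ :=
    ex_kappa (g := fun κ => κ ^ 4 - 1) (by fun_prop) (by norm_num) hδ
  have e2 : ∀ᶠ κ in 𝓝[>] (1 : ℝ), (κ ^ 6 - 1) * lev (recf D A) μ j < δ :=
    ex_kappa (g := fun κ => (κ ^ 6 - 1) * lev (recf D A) μ j) (by fun_prop) (by norm_num) hδ
  have e3 : ∀ᶠ κ in 𝓝[>] (1 : ℝ), 3 * (κ ^ 2 - 1) * ‖f‖ * 2 < ε / 2 :=
    ex_kappa (g := fun κ => 3 * (κ ^ 2 - 1) * ‖f‖ * 2) (by fun_prop) (by norm_num)
      (by positivity)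
  obtain ⟨κ, ⟨e1, e2, e3⟩, hκ⟩ := ((e1.and (e2.and e3)).and self_mem_nhdsWithin).exists
  have hκ' : (1 : ℝ) < κ := hκ
  refine ⟨κ, hκ', fun A' μ' hD' h h' v hv hn => ?_⟩
  have hκ0 : 0 ≤ κ := by linarith
  obtain ⟨hF', hvec', -, hq', -, -, -⟩ := base hD'
  obtain ⟨q', hqs', hqv'⟩ := hq' f
  obtain ⟨z, hzv, hz⟩ := hvec' _ v hv hn
  obtain ⟨T, hTs, ta, tb, tq⟩ := transfer hD hD' hκ'.le h h'
  obtain ⟨w, hw⟩ := hTs z
  obtain ⟨a', ha'⟩ : ∃ a' : HF (recf D A) μ →L[ℝ] HF (recf D A) μ →L[ℝ] ℝ,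
      ∀ x y, a' x y = aa (recf D A') μ' (T x) (T y) :=
    ⟨(aa (recf D A') μ').bilinearComp T T, fun x y => rfl⟩
  obtain ⟨b', hb'⟩ : ∃ b' : HF (recf D A) μ →L[ℝ] HF (recf D A) μ →L[ℝ] ℝ,
      ∀ x y, b' x y = bb (recf D A') μ' (T x) (T y) :=
    ⟨(bb (recf D A') μ').bilinearComp T T, fun x y => rfl⟩
  have hlb : ∀ x, 0 ≤ aa (recf D A) μ x x := hF.na
  have hlb' : ∀ x, 0 ≤ bb (recf D A) μ x x := hF.nb
  have hE : |lev (recf D A') μ' j - lam j| ≤ δ := by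
    have h1 := lev_cmp hD hD' hκ0 h h' j
    have h2 := lev_cmp hD' hD hκ0 h' h j
    have h3 := lev_nonneg hD' j
    rw [← hlev u lam hu j]
    have h4 : 1 ≤ κ ^ 6 := one_le_pow₀ hκ'.le
    rw [abs_le]
    constructor
    · by_cases h5 : lev (recf D A) μ j ≤ lev (recf D A') μ' j
      · linarith
      · rw [not_le] at h5
        have h6 : (κ ^ 6 - 1) * lev (recf D A') μ' j ≤ (κ ^ 6 - 1) * lev (recf D A) μ j :=
          mul_le_mul_of_nonneg_left h5.le (by linarith)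
        linarith
    · linarith
  have h1 : -(q w w) ≤ -c + ε / 2 := by
    refine hst a' b' (lev (recf D A') μ' j) w ?_ ?_ ?_ ?_ hE ⟨?_, ?_⟩
    · intro x y
      rw [ha', ha', hF'.sa]
    · intro x y
      rw [hb', hb', hF'.sb]
    · intro x
      rw [ha']
      exact (ta x).trans (mul_le_mul_of_nonneg_right e1.le (hlb x))
    · intro x
      rw [hb']
      exact (tb x).trans (mul_le_mul_of_nonneg_right e1.le (hlb' x))
    · intro x
      rw [ha', hb', hw]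
      exact hz.1 (T x)
    · rw [hb', hw]
      exact hz.2
  have h2 : bb (recf D A) μ w w ≤ 2 := by
    have h3 := (abs_le.1 (tb w)).1
    rw [hw, hz.2] at h3
    have h4 : (κ ^ 4 - 1) * bb (recf D A) μ w w ≤ 1 / 2 * bb (recf D A) μ w w :=
      mul_le_mul_of_nonneg_right (by linarith) (hlb' w)
    linarith
  have h3 := (abs_le.1 (tq f q q' (fun v => (hqv v).1) (fun v => (hqv' v).1) w)).1
  rw [hw] at h3
  have h4 : 3 * (κ ^ 2 - 1) * ‖f‖ * bb (recf D A) μ w w ≤ 3 * (κ ^ 2 - 1) * ‖f‖ * 2 := by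
    refine mul_le_mul_of_nonneg_left h2 ?_
    have h5 : 1 ≤ κ ^ 2 := one_le_pow₀ hκ'.le
    exact mul_nonneg (mul_nonneg (by norm_num) (by linarith)) (norm_nonneg _)
  have h5 : ∫ x, f x * (v x) ^ 2 ∂μ' = q' z z := by
    rw [(hqv' z).1]
    exact integral_congr_ae (hzv.mono fun x hx => by simp only [hx])
  rw [h5]
  linarith

end

end Pool.Agent.Q93.QC
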