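import Pool.Agent.Q93.QC.Cont

/-!
# A deviation from equidistribution spreads to an open set of metrics of the family
-/

set_option autoImplicit false
set_option linter.unusedSectionVars false

open Set Filter Topology MeasureTheory

noncomputable section

namespace Pool.Agent.Q93.QC

open Pool.Agent.Y262.QE Pool.Agent.Y264.QR Pool.Agent.Y378.QR Q101.QG Pool.Agent.Q93.QB
  Pool.Agent.Q93.BGS

section

variable {M : Type} [MetricSpace M] [CompactSpace M] [MeasurableSpace M] [BorelSpace M] [Nonempty M]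
  {D : Data M}

theorem lev_forms {D : Data M} {μ : Measure M} (hD : D.IsSurf μ) {i : HF D μ →L[ℝ] Lp ℝ 2 μ}
    {a : HF D μ →L[ℝ] HF D μ →L[ℝ] ℝ} {b : C(M, ℝ) → HF D μ →L[ℝ] HF D μ →L[ℝ] ℝ}
    (hSf : Sf μ i a) (hi : ∀ v : HF D μ, i v = v.1.fst)
    (ha : ∀ u v : HF D μ, a u v = inner ℝ u.1.snd v.1.snd) (hB : IsB μ i b) (φ : C(M, ℝ)) (j : ℕ) :
    lev (D.conf fun x => Real.exp (φ x)) (wm μ fun x => Real.exp (φ x)) j = Ev a (b φ) j := by
  obtain ⟨hf, -⟩ := tFin M μ D hD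
  haveI := hf
  obtain ⟨hF, -, -⟩ := forms μ i a b hSf hB
  have hw : Continuous fun x : M => Real.exp (φ x) := Real.continuous_exp.comp φ.continuous
  have hD₁ := (tConf M μ D hD _ hw fun x => Real.exp_pos _).1
  obtain ⟨u', lam', hu'⟩ := tEx M μ D hD inferInstance φ
  obtain ⟨e', -, he'⟩ := tBr M μ D hD i a b hSf hi ha hB hF φ u' lam' hu'
  rw [(base hD₁).2.2.2.2.2.1 u' lam' hu' j]
  exact (Pool.Agent.Y592.QE.mm _ a (b φ) (hF _) e' lam' he' j).symm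

variable {Y : Type} [TopologicalSpace Y] {A : Y → Fin D.N → ℂ → ℂ →L[ℝ] ℂ} {m : Y → Measure M}

/-- the family contains the metrics `exp (t h) · g_y` for small `t > 0` -/
def Dir (D : Data M) (A : Y → Fin D.N → ℂ → ℂ →L[ℝ] ℂ) (y : Y) : Set C(M, ℝ) :=
  {h | ∃ s : ℝ → Y, Tendsto s (𝓝[>] 0) (𝓝 y) ∧ ∀ᶠ t in 𝓝[>] (0 : ℝ), ∀ i, ∀ z ∈ D.T i, ∀ v : ℂ,
    ‖A (s t) i z v‖ ^ 2 = Real.exp (t * h (D.ψ i z)) * ‖A y i z v‖ ^ 2}

theorem spread' (hS : ∀ y, (recf D (A y)).IsSurf (m y))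
    (hA : ∀ (y : Y) (κ : ℝ), 1 < κ → ∀ᶠ y' in 𝓝 y,
      Cmp D (A y) (A y') κ ∧ Cmp D (A y') (A y) κ) (y₀ : Y) (f : C(M, ℝ))
    (hf : f ∈ closure (Dir D A y₀)) (c η : ℝ) (hη : 0 < η) (E : ℝ) (v : M → ℝ)
    (hv : (recf D (A y₀)).IsEig (m y₀) E v) (hn : ∫ x, (v x) ^ 2 ∂(m y₀) = 1) (hE : 0 < E)
    (hdev : mn (m y₀) f + c < ∫ x, f x * (v x) ^ 2 ∂(m y₀)) (ρ : ℝ) (hρ : 0 < ρ) (O : Set Y)
    (hO : IsOpen O) (hy₀ : y₀ ∈ O) :
    ∃ (O' : Set Y) (j : ℕ), IsOpen O' ∧ O'.Nonempty ∧ O' ⊆ O ∧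
      ∀ y ∈ O', |lev (recf D (A y)) (m y) j - E| < ρ ∧
        ∀ w : M → ℝ, (recf D (A y)).IsEig (m y) (lev (recf D (A y)) (m y) j) w →
          ∫ x, (w x) ^ 2 ∂(m y) = 1 →
          mn (m y) f + (c - η) < ∫ x, f x * (w x) ^ 2 ∂(m y) := by
  obtain ⟨h, ⟨s, hs, hconf⟩, hhf⟩ := Metric.mem_closure_iff.1 hf (η / 16) (by positivity)
  rw [dist_eq_norm] at hhf
  have hD := hS y₀
  obtain ⟨hfin, -⟩ := tFin M _ _ hD
  haveI := hfin
  haveI := complete (recf D (A y₀)) (m y₀)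
  obtain ⟨i, a, hSf, hi, ha⟩ := tPackF M (m y₀) (recf D (A y₀)) hD inferInstance
  obtain ⟨b, hB, hF, -, -, -⟩ := tFm M (m y₀) (HF (recf D (A y₀)) (m y₀)) i a hSf
  have hW := tWl M (m y₀) (recf D (A y₀)) hD inferInstance i a b hSf hi ha hB
  obtain ⟨z, hzv, hz⟩ := toEV (m y₀) (recf D (A y₀)) hD i a b hi ha hB 0 E v (by
    rw [conf_one, wm_one]
    exact hv) (by
    rw [wm_one]
    exact hn)
  obtain ⟨e, E₀, hE₀⟩ := tSp _ a (b 0) (hF 0)
  obtain ⟨k, hkE⟩ := in_list a (b 0) (hF _) e E₀ hE₀ E z hz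
  have hmm : Ev a (b 0) k = E := by
    rw [← hkE]
    exact Pool.Agent.Y592.QE.mm _ a (b 0) (hF _) e E₀ hE₀ k
  rw [← hmm] at hz
  obtain ⟨j, hjE, hsel⟩ := sel (m y₀) i a b hSf hB hW 0 h z k hz (by rw [hmm]; exact hE) (η / 16)
    (by positivity)
  have hlev0 : lev (recf D (A y₀)) (m y₀) j = E := by
    have h1 := lev_forms hD hSf hi ha hB 0 j
    rw [conf_one, wm_one] at h1
    rw [h1, hjE, hmm]
  have hlc := lev_cont hS hA j
  have hmc := mn_cont hS hA h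
  -- the parameters near `y₀`
  have p1 : ∀ᶠ y in 𝓝 y₀, y ∈ O := hO.mem_nhds hy₀
  have p2 : ∀ᶠ y in 𝓝 y₀, |mn (m y) h - mn (m y₀) h| < η / 16 := by
    have h1 : Continuous fun y => |mn (m y) h - mn (m y₀) h| := (hmc.sub continuous_const).abs
    refine h1.continuousAt.eventually_lt_const ?_
    simp only
    rw [sub_self, abs_zero]
    positivity
  have hEd : Continuous fun y => |lev (recf D (A y)) (m y) j - E| :=
    (hlc.sub continuous_const).abs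
  have p3 : ∀ᶠ y in 𝓝 y₀, |lev (recf D (A y)) (m y) j - E| < ρ := by
    refine hEd.continuousAt.eventually_lt_const ?_
    simp only
    rw [hlev0, sub_self, abs_zero]
    exact hρ
  have c1 := (hs.eventually (p1.and (p2.and p3))).and hconf
  rw [eventually_nhdsWithin_iff] at c1
  obtain ⟨δ, hδ, hball⟩ := Metric.eventually_nhds_iff.1 c1
  obtain ⟨t, ht0, htδ, hselt⟩ := hsel δ hδ
  obtain ⟨⟨d1, d2, d3⟩, hcf⟩ := hball (show dist t 0 < δ by
    rw [Real.dist_eq, sub_zero, abs_of_pos ht0]; exact htδ) ht0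
  rw [zero_add] at hselt
  -- the conformally changed metric
  obtain ⟨A₁, hA₁⟩ : ∃ A₁ : Fin D.N → ℂ → ℂ →L[ℝ] ℂ, A₁ = fun i z =>
      Real.sqrt (Real.exp ((t • h) (D.ψ i z))) • A y₀ i z := ⟨_, rfl⟩
  have hrec : recf D A₁ = (recf D (A y₀)).conf fun x => Real.exp ((t • h) x) := by
    rw [hA₁]
    rfl
  have hw : Continuous fun x : M => Real.exp ((t • h) x) :=
    Real.continuous_exp.comp (t • h).continuous
  have hD₁ : (recf D A₁).IsSurf (wm (m y₀) fun x => Real.exp ((t • h) x)) := by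
    rw [hrec]
    exact (tConf M _ _ hD _ hw fun x => Real.exp_pos _).1
  have hP₁ : Pj (recf D A₁) (wm (m y₀) fun x => Real.exp ((t • h) x)) j h
      (kap (m y₀) i h 0 z - η / 16) := by
    intro w hw1 hw2
    rw [hrec] at hw1
    obtain ⟨x, hx, hxe⟩ := toEV (m y₀) (recf D (A y₀)) hD i a b hi ha hB (t • h) _ w hw1 hw2
    rw [lev_forms hD hSf hi ha hB (t • h) j] at hxe
    have h1 := hselt x hxe
    rwa [kap_eq (m y₀) i h (t • h) x w hx] at h1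
  obtain ⟨κ, hκ, hnear⟩ := near' hD₁ j h _ (η / 16) (by positivity) hP₁
  have heq : ∀ i, ∀ z ∈ D.T i, ∀ v : ℂ, ‖A₁ i z v‖ = ‖A (s t) i z v‖ := by
    intro i z hz v
    have h1 : ‖A₁ i z v‖ ^ 2 = ‖A (s t) i z v‖ ^ 2 := by
      rw [hcf i z hz v, hA₁]
      simp only
      rw [_root_.smul_apply, norm_smul, mul_pow, Real.norm_eq_abs, sq_abs,
        Real.sq_sqrt (Real.exp_pos _).le]
      rfl
    exact (pow_left_inj₀ (norm_nonneg _) (norm_nonneg _) two_ne_zero).1 h1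
  have n1 : ∀ᶠ y in 𝓝 (s t), Pj (recf D (A y)) (m y) j h
      (kap (m y₀) i h 0 z - η / 16 - η / 16) := by
    filter_upwards [hA (s t) κ hκ] with y hy
    refine hnear (A y) (m y) (hS y) ?_ ?_
    · intro i z hz v
      rw [heq i z hz v]
      exact hy.1 i z hz v
    · intro i z hz v
      rw [heq i z hz v]
      exact hy.2 i z hz v
  have n2 : ∀ᶠ y in 𝓝 (s t), |mn (m y) h - mn (m (s t)) h| < η / 16 := by
    have h1 : Continuous fun y => |mn (m y) h - mn (m (s t)) h| := (hmc.sub continuous_const).abs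
    refine h1.continuousAt.eventually_lt_const ?_
    simp only
    rw [sub_self, abs_zero]
    positivity
  have n3 : ∀ᶠ y in 𝓝 (s t), |lev (recf D (A y)) (m y) j - E| < ρ :=
    hEd.continuousAt.eventually_lt_const d3
  obtain ⟨O₁, hO₁, hO₁o, hxO₁⟩ := eventually_nhds_iff.1 (n1.and (n2.and n3))
  refine ⟨O ∩ O₁, j, hO.inter hO₁o, ⟨s t, d1, hxO₁⟩, inter_subset_left, ?_⟩
  rintro y ⟨-, hy⟩
  obtain ⟨m1, m2, m3⟩ := hO₁ y hy
  refine ⟨m3, fun w hw1 hw2 => ?_⟩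
  have k1 := m1 w hw1 hw2
  have k0 : kap (m y₀) i h 0 z = ∫ x, h x * (v x) ^ 2 ∂(m y₀) := by
    rw [kap_eq (m y₀) i h 0 z v hzv, wm_one]
  rw [k0] at k1
  have k2' := abs_le.1 (int_near f h w hw1.mem hw2)
  have k3' := abs_le.1 (int_near f h v hv.mem hn)
  have k4' := abs_le.1 (mn_near (hS y) f h)
  have k5' := abs_le.1 (mn_near (hS y₀) f h)
  have m2' := abs_lt.1 m2
  have d2' := abs_lt.1 d2
  linarith [k2'.1, k2'.2, k3'.1, k3'.2, k4'.1, k4'.2, k5'.1, k5'.2, m2'.1, m2'.2, d2'.1, d2'.2]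

/-- the parameters for which all normalized eigenfunctions with eigenvalues `E ≥ L` are
equidistributed up to `r E` on `f` -/
def OkS (D : Data M) (A : Y → Fin D.N → ℂ → ℂ →L[ℝ] ℂ) (m : Y → Measure M) (f : C(M, ℝ))
    (r : ℝ → ℝ) (L : ℕ) : Set Y :=
  {y | Ok (recf D (A y)) (m y) f r L}

theorem kp' (hS : ∀ y, (recf D (A y)).IsSurf (m y))
    (hA : ∀ (y : Y) (κ : ℝ), 1 < κ → ∀ᶠ y' in 𝓝 y,
      Cmp D (A y) (A y') κ ∧ Cmp D (A y') (A y) κ) (f : C(M, ℝ))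
    (hf : ∀ y, f ∈ closure (Dir D A y) ∧ -f ∈ closure (Dir D A y))
    (r : ℝ → ℝ) (hr : Continuous r) (L : ℕ) :
    interior (closure (OkS D A m f r L)) ⊆ OkS D A m f r (L + 1) := by
  intro x₀ hx₀ E v hv hn hk
  by_contra hcon
  rw [not_le] at hcon
  set d : ℝ := |∫ x, f x * (v x) ^ 2 ∂(m x₀) - (∫ x, f x ∂(m x₀)) / (m x₀).real univ| - r E
    with hd
  have hd0 : 0 < d := sub_pos.2 hcon
  have hcon' : r E + d / 2 < |∫ x, f x * (v x) ^ 2 ∂(m x₀) - mn (m x₀) f| := by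
    show r E + d / 2 < |∫ x, f x * (v x) ^ 2 ∂(m x₀) - (∫ x, f x ∂(m x₀)) / (m x₀).real univ|
    rw [hd] at hd0 ⊢
    linarith
  have hL1 : (L : ℝ) + 1 ≤ E := by
    have h1 := hk
    push_cast at h1
    exact h1
  have hE0 : 0 < E := by
    have := Nat.cast_nonneg (α := ℝ) L
    linarith
  have hre : ∀ᶠ t in 𝓝 E, r t < r E + d / 4 :=
    hr.continuousAt.eventually_lt_const (by linarith)
  obtain ⟨ρ, hρ, hρr⟩ := Metric.eventually_nhds_iff.1 hre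
  have hneg : ∀ (ν : Measure M) (w : M → ℝ), ∫ x, (-f) x * (w x) ^ 2 ∂ν =
      -∫ x, f x * (w x) ^ 2 ∂ν := by
    intro ν w
    rw [← integral_neg]
    refine integral_congr_ae (Eventually.of_forall fun x => ?_)
    show -(f x) * (w x) ^ 2 = -(f x * (w x) ^ 2)
    ring
  have key : ∀ f' : C(M, ℝ), mn (m x₀) f' + (r E + d / 2) < ∫ x, f' x * (v x) ^ 2 ∂(m x₀) →
      (f' = f ∨ f' = -f) → False := by
    intro f' hf' hff
    have hcl : f' ∈ closure (Dir D A x₀) := by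
      rcases hff with rfl | rfl
      · exact (hf x₀).1
      · exact (hf x₀).2
    obtain ⟨O', j, hO', ⟨y₁, hy₁⟩, hsub, hall⟩ := spread' hS hA x₀ f' hcl (r E + d / 2) (d / 4)
      (by positivity) E v hv hn hE0 hf' (min ρ 1) (lt_min hρ one_pos) _ isOpen_interior hx₀
    have h1 : y₁ ∈ closure (OkS D A m f r L) := interior_subset (hsub hy₁)
    obtain ⟨y, hy, hyok⟩ := mem_closure_iff.1 h1 O' hO' hy₁
    obtain ⟨hLy, hwy⟩ := hall y hy
    obtain ⟨-, -, -, -, ⟨u', lam', hu'⟩, hlev, -⟩ := base (hS y)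
    have hl := hlev u' lam' hu' j
    have hLy1 : |lev (recf D (A y)) (m y) j - E| < ρ := lt_of_lt_of_le hLy (min_le_left _ _)
    have hLy2 : |lev (recf D (A y)) (m y) j - E| < 1 := lt_of_lt_of_le hLy (min_le_right _ _)
    have hej : (recf D (A y)).IsEig (m y) (lev (recf D (A y)) (m y) j) (u' j) := by
      rw [hl]
      exact hu'.eig j
    have hnj : ∫ x, (u' j x) ^ 2 ∂(m y) = 1 := by
      have h4 := hu'.orth j j
      rw [if_pos rfl] at h4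
      rw [← h4]
      exact integral_congr_ae (Eventually.of_forall fun x => by simp only [sq])
    have h2 := hwy (u' j) hej hnj
    have h3 := hyok _ (u' j) hej hnj (by linarith [(abs_lt.1 hLy2).1])
    have h7 : r (lev (recf D (A y)) (m y) j) < r E + d / 4 :=
      hρr (by rw [Real.dist_eq]; exact hLy1)
    have h4 := abs_le.1 h3
    have h5 : ∫ x, f x * (u' j x) ^ 2 ∂(m y) - mn (m y) f ≤ r (lev (recf D (A y)) (m y) j) := h4.2
    have h6 : -(r (lev (recf D (A y)) (m y) j)) ≤ ∫ x, f x * (u' j x) ^ 2 ∂(m y) - mn (m y) f :=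
      h4.1
    rcases hff with rfl | rfl
    · linarith
    · rw [mn_neg, hneg] at h2
      linarith
  rcases lt_abs.1 hcon' with h1 | h1
  · exact key f (by linarith) (Or.inl rfl)
  · refine key (-f) ?_ (Or.inr rfl)
    rw [mn_neg, hneg]
    linarith

theorem cof' (hS : ∀ y, (recf D (A y)).IsSurf (m y)) :
    ∃ I : Set (Pr M), I.Countable ∧
      ∀ p : Pr M, ∃ q ∈ I, ∀ L, OkS D A m q.1 (fun _ => (q.2 : ℝ)) L ⊆
        OkS D A m p.1 (fun _ => (p.2 : ℝ)) L := by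
  obtain ⟨T, hT2, hT3⟩ := TopologicalSpace.exists_countable_dense C(M, ℝ)
  refine ⟨(fun z : C(M, ℝ) × ℕ => (z.1, (⟨1 / ((z.2 : ℝ) + 1), by positivity⟩ : {ε : ℝ // 0 < ε})))
    '' (T ×ˢ univ), (hT2.prod countable_univ).image _, ?_⟩
  rintro ⟨f, ⟨ε, hε⟩⟩
  obtain ⟨n, hn⟩ := exists_nat_one_div_lt (show 0 < ε / 4 by positivity)
  obtain ⟨g, hg, hgf⟩ := Metric.mem_closure_iff.1 (hT3 f) (ε / 4) (by positivity)
  rw [dist_eq_norm] at hgf
  refine ⟨_, ⟨(g, n), ⟨hg, mem_univ _⟩, rfl⟩, fun L y hy => ?_⟩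
  intro E v hv hnv hk
  have h3 := hy E v hv hnv hk
  simp only at h3 ⊢
  have h3' : |∫ x, g x * (v x) ^ 2 ∂(m y) - mn (m y) g| ≤ 1 / ((n : ℝ) + 1) := h3
  show |∫ x, f x * (v x) ^ 2 ∂(m y) - mn (m y) f| ≤ ε
  have k2 := abs_le.1 (int_near f g v hv.mem hnv)
  have k4 := abs_le.1 (mn_near (hS y) f g)
  have h4 := abs_le.1 h3'
  rw [abs_le]
  constructor <;> linarith [k2.1, k2.2, k4.1, k4.2, h4.1, h4.2]

end

end Pool.Agent.Q93.QC
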