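import Pool.Agent.Q101.QGForm

/-!
# Stability of eigenvectors when both forms vary

(The proof follows `stab` of `Pool.Agent.Q101.QGForm`.)
-/

set_option autoImplicit false

open Set Filter Topology

noncomputable section

namespace Pool.Agent.Q93.QC

open Pool.Agent.Y262.QE Q101.QG

variable {H : Type} [NormedAddCommGroup H] [InnerProductSpace ℝ H]

theorem stab2 (a b : H →L[ℝ] H →L[ℝ] ℝ) (hF : Fm a b) (e : ℕ → H) (E : ℕ → ℝ) (hE : Eg a b e E)
    (k : H →L[ℝ] H →L[ℝ] ℝ) (K : ℝ) (hk : ∀ u v, k u v = k v u) (hK0 : 0 ≤ K)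
    (hK : ∀ v, |k v v| ≤ K * b v v) (j : ℕ) (c : ℝ) (hc : ∀ v, EV a b (E j) v → k v v ≤ c)
    (ε : ℝ) (hε : 0 < ε) :
    ∃ δ : ℝ, 0 < δ ∧ δ ≤ 1 / 2 ∧ ∀ (a' b' : H →L[ℝ] H →L[ℝ] ℝ) (E' : ℝ) (v : H),
      (∀ x y, a' x y = a' y x) → (∀ x y, b' x y = b' y x) →
      (∀ x, |a' x x - a x x| ≤ δ * a x x) → (∀ x, |b' x x - b x x| ≤ δ * b x x) →
      |E' - E j| ≤ δ → EV a' b' E' v → k v v ≤ c + ε := by
  obtain ⟨N, γ, hγ, hN, hg⟩ := gap E hE.tt j
  set C₂ : ℝ := (|E j| + 2) * (2 / γ) ^ 2 + 2 / γ with hC₂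
  set Q : ℝ := C₂ * (|E j| + 1) ^ 2 * (2 * (|E j| + 1) + 2) with hQ
  have hC₂0 : 0 ≤ C₂ := by positivity
  have hQ0 : 0 ≤ Q := by positivity
  set W : ℝ := |c| * (2 + Q) + K * (2 + Q) + K * Q with hW
  have hW0 : 0 ≤ W := by positivity
  set δ : ℝ := min (1 / 2) (min (γ / 2) (ε / (W + 1))) with hδ
  have hδ0 : 0 < δ := lt_min (by norm_num) (lt_min (by positivity) (by positivity))
  have hδ1 : δ ≤ 1 / 2 := min_le_left _ _
  have hδ2 : δ ≤ γ / 2 := (min_le_right _ _).trans (min_le_left _ _)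
  have hδ3 : δ * W ≤ ε := by
    have h1 : δ ≤ ε / (W + 1) := (min_le_right _ _).trans (min_le_right _ _)
    rw [le_div_iff₀ (by positivity)] at h1
    nlinarith
  refine ⟨δ, hδ0, hδ1, ?_⟩
  intro a' b' E' v hsa hs ha' hb' hE' hv
  -- the norm of `v`
  have hB0 : 0 ≤ b v v := hF.nb v
  have hB1 : |b v v - 1| ≤ δ * b v v := by
    have := hb' v
    rwa [hv.2, abs_sub_comm] at this
  have hB2 : b v v ≤ 2 := by
    have h1 := (abs_le.1 hB1).2
    nlinarith
  have hB3 : |b v v - 1| ≤ 2 * δ := hB1.trans (by nlinarith)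
  -- the projection
  set S : Finset ℕ := (Finset.range N).filter fun i => E i = E j with hS
  have hSm : ∀ i, i ∈ S ↔ E i = E j := by
    intro i
    rw [hS, Finset.mem_filter, Finset.mem_range]
    exact ⟨fun h => h.2, fun h => ⟨hN i h, h⟩⟩
  set p : H := ∑ i ∈ S, (b v (e i)) • e i with hp
  set r : H := v - p with hr
  have hbp : ∀ x, b p x = ∑ i ∈ S, b v (e i) * b (e i) x := by
    intro x
    rw [hp, map_sum, ContinuousLinearMap.sum_apply]
    exact Finset.sum_congr rfl fun i _ => by rw [map_smul, _root_.smul_apply, smul_eq_mul]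
  have hpe : ∀ l, b p (e l) = if l ∈ S then b v (e l) else 0 := by
    intro l
    rw [hbp]
    simp only [hE.orth, mul_ite, mul_one, mul_zero]
    rw [Finset.sum_ite_eq']
  have hre : ∀ l, b r (e l) = if l ∈ S then 0 else b v (e l) := by
    intro l
    rw [hr, map_sub, _root_.sub_apply, hpe]
    split_ifs <;> ring
  have hap : ∀ x, a p x = E j * b p x := by
    intro x
    rw [hbp, hp, map_sum, ContinuousLinearMap.sum_apply, Finset.mul_sum]
    refine Finset.sum_congr rfl fun i hi => ?_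
    rw [map_smul, _root_.smul_apply, smul_eq_mul, hE.eig, (hSm i).1 hi]
    ring
  have hpr : b p r = 0 := by
    rw [hbp]
    refine Finset.sum_eq_zero fun i hi => ?_
    rw [hF.sb (e i) r, hre, if_pos hi, mul_zero]
  have hvpr : v = p + r := by rw [hr]; abel
  have hpy : b v v = b p p + b r r := by
    have h1 : b v v = b (p + r) (p + r) := by rw [← hvpr]
    rw [h1]
    simp only [map_add, _root_.add_apply]
    rw [hpr, hF.sb r p, hpr]; ring
  -- the remainder is small
  have hEabs : |E'| ≤ |E j| + 1 := by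
    have h3 : |E'| ≤ |E j| + |E' - E j| := by
      have := abs_add_le (E j) (E' - E j)
      rwa [add_sub_cancel] at this
    linarith
  have hA2 : a v v ≤ 2 * (|E j| + 1) := by
    have h1 := (abs_le.1 (ha' v)).1
    have h2 : a' v v = E' := by rw [hv.1 v, hv.2, mul_one]
    have h3 := le_abs_self E'
    have h4 : 0 ≤ a v v := hF.na v
    nlinarith
  have hE0 : ∀ i, 0 ≤ E i := by
    intro i
    have h1 := hE.eig i (e i)
    rw [hE.orth, if_pos rfl, mul_one] at h1
    rw [← h1]
    exact hF.na _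
  obtain ⟨g, hgd⟩ : ∃ g : ℕ → H, g = fun i => (Real.sqrt (1 + E i))⁻¹ • e i := ⟨_, rfl⟩
  obtain ⟨k', hk'⟩ : ∃ k' : H →L[ℝ] H →L[ℝ] ℝ, k' = E' • (b' - b) - (a' - a) := ⟨_, rfl⟩
  have hk'a : ∀ x y, k' x y = E' * (b' x y - b x y) - (a' x y - a x y) := by
    intro x y
    rw [hk']
    rfl
  have hsq : ∀ i, Real.sqrt (1 + E i) ^ 2 = 1 + E i := fun i =>
    Real.sq_sqrt (by linarith [hE0 i])
  have hsp : ∀ i, 0 < Real.sqrt (1 + E i) := fun i => Real.sqrt_pos.2 (by linarith [hE0 i])
  have hbes : ∀ F : Finset ℕ, ∑ i ∈ F, (k' v (g i)) ^ 2 ≤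
      ((|E j| + 1) * δ) ^ 2 * (a + b) v v := by
    intro F
    refine bes (a + b) k' ?_ ?_ ((|E j| + 1) * δ) (by positivity) ?_ g ?_ v F
    · intro x y
      show a x y + b x y = a y x + b y x
      rw [hF.sa, hF.sb]
    · intro x y
      rw [hk'a, hk'a, hs x y, hF.sb x y, hsa x y, hF.sa x y]
    · intro x
      rw [hk'a]
      show _ ≤ _ * (a x x + b x x)
      have h1 := hb' x
      have h2 := ha' x
      have h3 : 0 ≤ a x x := hF.na x
      have h4 : 0 ≤ b x x := hF.nb x
      have h5 : |E' * (b' x x - b x x)| ≤ (|E j| + 1) * (δ * b x x) := by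
        rw [abs_mul]
        exact mul_le_mul hEabs h1 (abs_nonneg _) (by positivity)
      have h6 : δ * a x x ≤ (|E j| + 1) * (δ * a x x) := by
        have h7 : 0 ≤ |E j| * (δ * a x x) := by positivity
        linarith
      have h7 := abs_sub (E' * (b' x x - b x x)) (a' x x - a x x)
      have h8 : (|E j| + 1) * δ * (a x x + b x x) =
          (|E j| + 1) * (δ * a x x) + (|E j| + 1) * (δ * b x x) := by ring
      rw [h8]
      linarith
    · intro i l
      show a (g i) (g l) + b (g i) (g l) = _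
      rw [hgd]
      simp only [map_smul, _root_.smul_apply, smul_eq_mul, hE.eig, hE.orth]
      by_cases hil : i = l
      · subst hil
        rw [if_pos rfl]
        have h1 := hsq i
        have h3 : (Real.sqrt (1 + E i))⁻¹ * ((Real.sqrt (1 + E i))⁻¹ * (E i * 1)) +
            (Real.sqrt (1 + E i))⁻¹ * ((Real.sqrt (1 + E i))⁻¹ * 1) =
            (Real.sqrt (1 + E i) ^ 2)⁻¹ * (1 + E i) := by
          rw [sq, mul_inv]
          ring
        rw [h3, h1, inv_mul_cancel₀ (ne_of_gt (by linarith [hE0 i]))]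
      · rw [if_neg hil]
        ring
  have hrr : b r r ≤ Q * δ ^ 2 := by
    refine le_of_tendsto (hE.sum r) ?_
    filter_upwards with F
    have h1 : ∀ i ∈ F, (b r (e i)) ^ 2 ≤ C₂ * (k' v (g i)) ^ 2 := by
      intro i hi
      rw [hre]
      split_ifs with h2
      · rw [zero_pow two_ne_zero]; positivity
      · have h3 : E i ≠ E j := fun h => h2 ((hSm i).2 h)
        have h4 : γ / 2 ≤ |E i - E'| := by
          have h5 := hg i h3
          have h6 : |E i - E j| ≤ |E i - E'| + |E' - E j| := abs_sub_le _ _ _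
          linarith
        have h5 : (E i - E') * b v (e i) = k' v (e i) := by
          rw [hk'a]
          have h6 := hE.eig i v
          have h7 := hv.1 (e i)
          rw [hF.sa, hF.sb (e i) v] at h6
          linear_combination h7 - h6
        have h6 : k' v (g i) = (Real.sqrt (1 + E i))⁻¹ * k' v (e i) := by
          rw [hgd]
          simp only [map_smul, smul_eq_mul]
        have h7 : (k' v (e i)) ^ 2 = (1 + E i) * (k' v (g i)) ^ 2 := by
          rw [h6, mul_pow, inv_pow, hsq]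
          have h8 : (1 + E i) ≠ 0 := by linarith [hE0 i]
          field_simp
        have h8 : 1 + E i ≤ C₂ * (E i - E') ^ 2 := by
          set t : ℝ := |E i - E'| with ht
          have h9 : E i ≤ |E'| + t := by
            have h10 := le_abs_self (E i - E')
            have h11 := le_abs_self E'
            linarith
          have h10 : 1 ≤ (2 / γ) ^ 2 * t ^ 2 := by
            rw [← mul_pow]
            have h11 : 1 ≤ 2 / γ * t := by
              rw [div_mul_eq_mul_div, le_div_iff₀ hγ]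
              linarith
            nlinarith
          have h11 : t ≤ 2 / γ * t ^ 2 := by
            have h12 : 1 ≤ 2 / γ * t := by
              rw [div_mul_eq_mul_div, le_div_iff₀ hγ]
              linarith
            have h13 : 0 ≤ t := abs_nonneg _
            nlinarith
          have h12 : (E i - E') ^ 2 = t ^ 2 := by rw [ht, sq_abs]
          have h13 : (|E j| + 2) * 1 ≤ (|E j| + 2) * ((2 / γ) ^ 2 * t ^ 2) := by gcongr
          rw [h12, hC₂]
          nlinarith
        have h9 : (E i - E') ^ 2 * (b v (e i)) ^ 2 = (k' v (e i)) ^ 2 := by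
          rw [← mul_pow, h5]
        have h10 : 0 < (E i - E') ^ 2 := by
          rw [← sq_abs]
          have : 0 < |E i - E'| := by linarith [half_pos hγ]
          positivity
        refine le_of_mul_le_mul_left ?_ h10
        rw [h9, h7]
        calc (1 + E i) * (k' v (g i)) ^ 2 ≤ (C₂ * (E i - E') ^ 2) * (k' v (g i)) ^ 2 :=
              mul_le_mul_of_nonneg_right h8 (sq_nonneg _)
          _ = (E i - E') ^ 2 * (C₂ * (k' v (g i)) ^ 2) := by ring
    calc ∑ i ∈ F, (b r (e i)) ^ 2 ≤ ∑ i ∈ F, C₂ * (k' v (g i)) ^ 2 := Finset.sum_le_sum h1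
      _ = C₂ * ∑ i ∈ F, (k' v (g i)) ^ 2 := by rw [Finset.mul_sum]
      _ ≤ C₂ * (((|E j| + 1) * δ) ^ 2 * (a + b) v v) := mul_le_mul_of_nonneg_left (hbes F) hC₂0
      _ ≤ C₂ * (((|E j| + 1) * δ) ^ 2 * (2 * (|E j| + 1) + 2)) := by
          have h2 : (a + b) v v ≤ 2 * (|E j| + 1) + 2 := by
            show a v v + b v v ≤ _
            linarith
          gcongr
      _ = Q * δ ^ 2 := by rw [hQ]; ring
  have hr0 : 0 ≤ b r r := hF.nb r
  have hp0 : 0 ≤ b p p := hF.nb p
  have hp2 : b p p ≤ 2 := by linarith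
  have hδδ : δ ^ 2 ≤ δ := by nlinarith
  -- the three terms
  have hkp : k p p ≤ c * b p p := by
    by_cases h0 : b p p = 0
    · have h1 := hK p
      rw [h0, mul_zero] at h1 ⊢
      exact (le_abs_self _).trans h1
    · have h1 : 0 < b p p := lt_of_le_of_ne hp0 (Ne.symm h0)
      set s : ℝ := (Real.sqrt (b p p))⁻¹ with hs'
      have h2 : s ^ 2 = (b p p)⁻¹ := by
        rw [hs', inv_pow, Real.sq_sqrt hp0]
      have h3 := hc (s • p) ⟨fun x => by
          rw [map_smul, map_smul, _root_.smul_apply, _root_.smul_apply, smul_eq_mul, smul_eq_mul,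
            hap]; ring, by
          rw [sm, h2, inv_mul_cancel₀ h0]⟩
      rw [sm, h2, inv_mul_eq_div, div_le_iff₀ h1] at h3
      exact h3
  have hkpr : 2 * |k p r| ≤ K * (2 + Q) * δ := by
    have h1 := cs b k hF.sb hk K hK (δ • p) r
    have h2 : k (δ • p) r = δ * k p r := by
      rw [map_smul, _root_.smul_apply, smul_eq_mul]
    have h3 : b (δ • p) (δ • p) = δ ^ 2 * b p p := sm b δ p
    rw [h2, h3, abs_mul, abs_of_pos hδ0] at h1
    have h4 : K * (δ ^ 2 * b p p + b r r) ≤ K * (δ ^ 2 * 2 + Q * δ ^ 2) := by gcongr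
    have h5 : 0 ≤ δ * (K * (2 + Q) * δ - 2 * |k p r|) := by nlinarith
    have h6 := (mul_nonneg_iff_of_pos_left hδ0).1 h5
    linarith
  have hkr : k r r ≤ K * Q * δ := by
    have h1 := (le_abs_self _).trans (hK r)
    have h2 : K * b r r ≤ K * (Q * δ ^ 2) := by gcongr
    have h3 : K * (Q * δ ^ 2) ≤ K * (Q * δ) := by gcongr
    linarith
  have hcp : c * b p p ≤ c + |c| * (2 + Q) * δ := by
    have h1 : |b p p - 1| ≤ (2 + Q) * δ := by
      have h2 : b p p - 1 = (b v v - 1) - b r r := by rw [hpy]; ring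
      rw [h2]
      have h3 := abs_sub (b v v - 1) (b r r)
      rw [abs_of_nonneg hr0] at h3
      have h4 : Q * δ ^ 2 ≤ Q * δ := by gcongr
      linarith
    have h2 : c * (b p p - 1) ≤ |c| * ((2 + Q) * δ) :=
      (le_abs_self _).trans (by rw [abs_mul]; gcongr)
    linarith
  have hkv : k v v = k p p + 2 * k p r + k r r := by
    have h1 : k v v = k (p + r) (p + r) := by rw [← hvpr]
    rw [h1]
    simp only [map_add, _root_.add_apply]
    rw [hk r p]; ring
  rw [hkv]
  have h1 : 2 * k p r ≤ 2 * |k p r| := by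
    have := le_abs_self (k p r)
    linarith
  have h2 : |c| * (2 + Q) * δ + K * (2 + Q) * δ + K * Q * δ = δ * W := by rw [hW]; ring
  linarith

end Pool.Agent.Q93.QC
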